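import Pool.Agent.KS6_77.AVc.Stmt

/-!
# MP_c52a38_ag, Q1: the statement fails with a cosupport of codimension one

(1) Let the complex torus `X = ℂ^g / Λ` contain the image of the `j`-th coordinate line as an
elliptic curve `C = ℂ / (ℤ + ℤ i)`, and let `D` be an effective `ℚ`-divisor of degree `D · C < 1`.
Then the cosupport `Z(D)` is invariant under all translations by `C`.

(2) For every `g ≥ 2` and every irrational `τ > 0` let `X = (E_i ^ (g-1) × E_τ) / ⟨(1/2, ..., 1/2)⟩`,
where `E_i = ℂ / (ℤ + ℤ i)` and `E_τ = ℂ / (ℤ + ℤ τ i)`. For every rational `r > 0` there is an ample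
effective `B` with `(B^g) = r` such that `(X, B)` does not split, and for every effective `D ≡ B` the
set `Z(D)` is invariant under all translations by the abelian subvariety `E_i ^ (g-1)`, of
codimension one; if `Z(D)` is an abelian subvariety, it is this one.

(3) Products of pairwise non-isogenous factors.
-/

namespace Pool.Agent.Results.MP_c52a38_ag.CodimensionOne

open Pool.Agent.KS6_77.AVc

theorem result : CurveInvariance ∧ CodimensionOne ∧ OtherFactors := final'

end Pool.Agent.Results.MP_c52a38_ag.CodimensionOne
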